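import Mathlib
import Pool.Agent.W546.ST.Defs

/-!
# The weighted Wirtinger inequality (`St_PIC`)
-/
set_option autoImplicit false
open MeasureTheory Set

namespace Pool.Agent.W160.ST
open Pool.Agent.W546.ST

noncomputable def h1 (l a : ℝ) : ℝ := (1 - 2 * l) * (2 * Real.sin a * Real.cos a)

lemma hh_pos {l : ℝ} (hl : 0 < l) (hl2 : l ≤ 1 / 2) (a : ℝ) : 0 < hh l a := by
  unfold hh
  have := sq_nonneg (Real.sin a)
  nlinarith [mul_nonneg (by linarith : (0:ℝ) ≤ 1 - 2 * l) this]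

lemma hasDerivAt_hh (l a : ℝ) : HasDerivAt (hh l) (h1 l a) a := by
  unfold hh h1
  have h := (((Real.hasDerivAt_sin a).pow 2).const_mul (1 - 2 * l)).const_add l
  exact h.congr_deriv (by norm_num)

lemma hasDerivAt_h1 (l a : ℝ) : HasDerivAt (h1 l) (2 - 4 * hh l a) a := by
  have h := ((((Real.hasDerivAt_sin a).const_mul 2).mul (Real.hasDerivAt_cos a))).const_mul (1 - 2 * l)
  have e : (2 - 4 * hh l a) = (1 - 2 * l) *
      ((2 * Real.cos a) * Real.cos a + 2 * Real.sin a * (-Real.sin a)) := by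
    unfold hh
    have := Real.sin_sq_add_cos_sq a
    linear_combination (-2 + 4 * l) * this
  rw [e]
  exact h

lemma h1_sq (l a : ℝ) : h1 l a ^ 2 = 4 * hh l a * (1 - hh l a) - 4 * (l * (1 - l)) := by
  unfold h1 hh
  have : Real.cos a ^ 2 = 1 - Real.sin a ^ 2 := by
    have := Real.sin_sq_add_cos_sq a; linarith
  have e : ((1 - 2 * l) * (2 * Real.sin a * Real.cos a)) ^ 2
      = (1 - 2 * l) ^ 2 * (4 * Real.sin a ^ 2 * Real.cos a ^ 2) := by ring
  rw [e, this]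
  ring

lemma sqrt_pow_eq {h : ℝ} (hp : 0 < h) (n : ℕ) :
    (Real.sqrt (h ^ n))⁻¹ = h ^ (-((n : ℝ) / 2)) := by
  rw [Real.rpow_neg hp.le]
  congr 1
  rw [Real.sqrt_eq_rpow, ← Real.rpow_natCast, ← Real.rpow_mul hp.le]
  congr 1
  ring

/-- the primitive of the boundary term -/
noncomputable def FB (n : ℕ) (l : ℝ) (D : ℝ → ℝ) (a : ℝ) : ℝ :=
  (((n : ℝ) + 1) / 2) * (h1 l a / hh l a) * (hh l a ^ (-((n : ℝ) / 2))) * D a ^ 2

noncomputable def FB' (n : ℕ) (l : ℝ) (D : ℝ → ℝ) (a : ℝ) : ℝ :=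
  ((((n : ℝ) + 1) / 2) * (((2 - 4 * hh l a) * hh l a - h1 l a * h1 l a) / hh l a ^ 2)
    * (hh l a ^ (-((n : ℝ) / 2)))
   + (((n : ℝ) + 1) / 2) * (h1 l a / hh l a)
    * (h1 l a * (-((n : ℝ) / 2)) * hh l a ^ (-((n : ℝ) / 2) - 1))) * D a ^ 2
   + (((n : ℝ) + 1) / 2) * (h1 l a / hh l a) * (hh l a ^ (-((n : ℝ) / 2))) * (2 * D a * deriv D a)

lemma hasDerivAt_FB {l : ℝ} (hl : 0 < l) (hl2 : l ≤ 1 / 2) (n : ℕ) {D : ℝ → ℝ} (hD : ContDiff ℝ 1 D)
    (a : ℝ) : HasDerivAt (FB n l D) (FB' n l D a) a := by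
  have hp := hh_pos hl hl2 a
  have d1 := hasDerivAt_hh l a
  have d2 := hasDerivAt_h1 l a
  have d3 : HasDerivAt (fun a => hh l a ^ (-((n : ℝ) / 2)))
      (h1 l a * (-((n : ℝ) / 2)) * hh l a ^ (-((n : ℝ) / 2) - 1)) a :=
    d1.rpow_const (Or.inl hp.ne')
  have d4 : HasDerivAt D (deriv D a) a := (hD.differentiable (by norm_num) a).hasDerivAt
  have d5 : HasDerivAt (fun a => D a ^ 2) (2 * D a * deriv D a) a := by
    have := d4.pow 2
    exact this.congr_deriv (by norm_num)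
  have d6 := ((((d2.div d1 hp.ne').const_mul (((n : ℝ) + 1) / 2))).mul d3).mul d5
  exact d6

lemma key {l : ℝ} (hl : 0 < l) (hl2 : l ≤ 1 / 2) (n : ℕ) (D : ℝ → ℝ)
    (a : ℝ) : ((n : ℝ) + 1) * ((1 - l * (1 - l) / hh l a ^ 2) * D a ^ 2 / Real.sqrt (hh l a ^ n))
      + FB' n l D a ≤ deriv D a ^ 2 / Real.sqrt (hh l a ^ n) := by
  have hp := hh_pos hl hl2 a
  have hG : 0 < hh l a ^ (-((n : ℝ) / 2)) := Real.rpow_pos_of_pos hp _
  have e1 : hh l a ^ (-((n : ℝ) / 2) - 1) = hh l a ^ (-((n : ℝ) / 2)) / hh l a :=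
    Real.rpow_sub_one hp.ne' _
  have hsq := h1_sq l a
  rw [div_eq_mul_inv _ (Real.sqrt (hh l a ^ n)), div_eq_mul_inv _ (Real.sqrt (hh l a ^ n)),
    sqrt_pow_eq hp]
  unfold FB'
  rw [e1]
  generalize hh l a ^ (-((n : ℝ) / 2)) = G at *
  generalize hh l a = h at *
  generalize h1 l a = k at *
  generalize D a = x at *
  generalize deriv D a = y at *
  have hN : 0 ≤ (y - (((n : ℝ) + 1) / 2) * (k / h) * x) ^ 2 * G := by positivity
  have : y ^ 2 * G - (((n : ℝ) + 1) * ((1 - l * (1 - l) / h ^ 2) * x ^ 2 * G) +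
      (((((n : ℝ) + 1) / 2) * (((2 - 4 * h) * h - k * k) / h ^ 2) * G
   + (((n : ℝ) + 1) / 2) * (k / h) * (k * (-((n : ℝ) / 2)) * (G / h))) * x ^ 2
   + (((n : ℝ) + 1) / 2) * (k / h) * G * (2 * x * y)))
     = (y - (((n : ℝ) + 1) / 2) * (k / h) * x) ^ 2 * G
       + (((n : ℝ) + 1) / 4) * G * x ^ 2 / h ^ 2 * (k ^ 2 - (4 * h * (1 - h) - 4 * (l * (1 - l)))) := by
    field_simp
    ring
  rw [hsq] at this
  linarith

theorem PIC : St_PIC := by
  intro n l hl hl2 D hD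
  have hp := hh_pos hl hl2
  have ch : Continuous (hh l) := by unfold hh; fun_prop
  have ch1 : Continuous (h1 l) := by unfold h1; fun_prop
  have cD : Continuous D := hD.continuous
  have cD' : Continuous (deriv D) := hD.continuous_deriv (by norm_num)
  have cS : Continuous (fun a => Real.sqrt (hh l a ^ n)) := by fun_prop
  have hS : ∀ a, Real.sqrt (hh l a ^ n) ≠ 0 := fun a =>
    (Real.sqrt_pos.mpr (pow_pos (hp a) n)).ne'
  have cr : ∀ q : ℝ, Continuous (fun a => hh l a ^ q) := fun q =>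
    ch.rpow_const (fun a => Or.inl (hp a).ne')
  have cA : Continuous (fun a => (1 - l * (1 - l) / hh l a ^ 2) * D a ^ 2 / Real.sqrt (hh l a ^ n)) := by
    refine Continuous.div ?_ cS hS
    refine Continuous.mul ?_ (by fun_prop)
    exact continuous_const.sub (continuous_const.div (by fun_prop) (fun a => (pow_pos (hp a) 2).ne'))
  have cB : Continuous (fun a => deriv D a ^ 2 / Real.sqrt (hh l a ^ n)) :=
    (cD'.pow 2).div cS hS
  have cdiv : Continuous (fun a => h1 l a / hh l a) := ch1.div ch (fun a => (hp a).ne')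
  have cF : Continuous (FB' n l D) := by
    unfold FB'
    have c2 : Continuous (fun a => ((2 - 4 * hh l a) * hh l a - h1 l a * h1 l a) / hh l a ^ 2) :=
      Continuous.div (by fun_prop) (by fun_prop) (fun a => (pow_pos (hp a) 2).ne')
    have c3 := cr (-((n : ℝ) / 2))
    have c4 := cr (-((n : ℝ) / 2) - 1)
    fun_prop
  have hint : ∫ a in (0 : ℝ)..Real.pi, FB' n l D a = 0 := by
    rw [intervalIntegral.integral_eq_sub_of_hasDerivAt (f := FB n l D)
      (fun a _ => hasDerivAt_FB hl hl2 n hD a) (cF.intervalIntegrable _ _)]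
    unfold FB h1
    simp
  have hmono : ∫ a in (0 : ℝ)..Real.pi, (((n : ℝ) + 1) *
      ((1 - l * (1 - l) / hh l a ^ 2) * D a ^ 2 / Real.sqrt (hh l a ^ n)) + FB' n l D a)
      ≤ ∫ a in (0 : ℝ)..Real.pi, deriv D a ^ 2 / Real.sqrt (hh l a ^ n) := by
    refine intervalIntegral.integral_mono_on Real.pi_pos.le ?_ (cB.intervalIntegrable _ _)
      (fun a _ => key hl hl2 n D a)
    exact ((continuous_const.mul cA).add cF).intervalIntegrable _ _
  have cA' : Continuous (fun a => ((n : ℝ) + 1) *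
      ((1 - l * (1 - l) / hh l a ^ 2) * D a ^ 2 / Real.sqrt (hh l a ^ n))) := continuous_const.mul cA
  rw [intervalIntegral.integral_add (cA'.intervalIntegrable _ _)
    (cF.intervalIntegrable _ _), hint, add_zero, intervalIntegral.integral_const_mul] at hmono
  unfold mn
  have hpi : 0 < 1 / Real.pi := by positivity
  calc ((n : ℝ) + 1) * (1 / Real.pi * ∫ a in (0 : ℝ)..Real.pi,
        (1 - l * (1 - l) / hh l a ^ 2) * D a ^ 2 / Real.sqrt (hh l a ^ n))
      = 1 / Real.pi * (((n : ℝ) + 1) * ∫ a in (0 : ℝ)..Real.pi,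
        (1 - l * (1 - l) / hh l a ^ 2) * D a ^ 2 / Real.sqrt (hh l a ^ n)) := by ring
    _ ≤ _ := mul_le_mul_of_nonneg_left hmono hpi.le

end Pool.Agent.W160.ST
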