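import Mathlib
import Pool.Agent.W546.ST.Defs
import Pool.Agent.W160.ST.PIC

/-!
# Bounds of the half-integer moment `E_{m-1/2}` (`St_EM` for `m ≥ 2`; `St_EM` itself is false for `m = 1`)
-/
set_option autoImplicit false
open MeasureTheory Set
open scoped Nat

namespace Pool.Agent.W160.ST
open Pool.Agent.W546.ST

/-- bounds of the half-integer moment `E_{m-1/2}`, for `m ≥ 2` -/
def St_EM2 : Prop := ∀ (m : ℕ), 2 ≤ m → ∀ l : ℝ, 0 < l → l ≤ 1 / 2 →
  0 ≤ Eq (2 * m - 1) 0 l ∧
  (∀ a : ℝ, 0 ≤ a → a ≤ l → Eq (2 * m - 1) 0 l ^ 2 ≤ EI (m - 1) a * EI m a) ∧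
  Eq (2 * m - 1) 0 l ≤ 2 / Real.pi * ((((2 * m - 2)‼ : ℕ) : ℝ) / (((2 * m - 1)‼ : ℕ) : ℝ))

lemma mn_const_mul (c : ℝ) (f : ℝ → ℝ) : mn (fun a => c * f a) = c * mn f := by
  unfold mn
  rw [intervalIntegral.integral_const_mul]
  ring

lemma mn_add {f g : ℝ → ℝ} (hf : Continuous f) (hg : Continuous g) :
    mn (fun a => f a + g a) = mn f + mn g := by
  unfold mn
  rw [intervalIntegral.integral_add (hf.intervalIntegrable _ _) (hg.intervalIntegrable _ _)]
  ring

lemma mn_mono {f g : ℝ → ℝ} (hf : Continuous f) (hg : Continuous g) (h : ∀ a, f a ≤ g a) :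
    mn f ≤ mn g := by
  unfold mn
  have hpi : 0 < 1 / Real.pi := by positivity
  exact mul_le_mul_of_nonneg_left (intervalIntegral.integral_mono Real.pi_pos.le
    (hf.intervalIntegrable _ _) (hg.intervalIntegrable _ _) h) hpi.le

lemma mn_nonneg {f : ℝ → ℝ} (h : ∀ a, 0 ≤ f a) : 0 ≤ mn f := by
  unfold mn
  have hpi : 0 < 1 / Real.pi := by positivity
  exact mul_nonneg hpi.le (intervalIntegral.integral_nonneg Real.pi_pos.le (fun a _ => h a))

lemma cont_hh (l : ℝ) : Continuous (hh l) := by unfold hh; fun_prop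

lemma hh_mem {l : ℝ} (hl : 0 ≤ l) (hl2 : l ≤ 1 / 2) (a : ℝ) : hh l a ∈ Icc (0 : ℝ) 1 := by
  unfold hh
  have h0 := sq_nonneg (Real.sin a)
  have h1 : Real.sin a ^ 2 ≤ 1 := Real.sin_sq_le_one a
  constructor
  · nlinarith [mul_nonneg (by linarith : (0:ℝ) ≤ 1 - 2 * l) h0]
  · nlinarith [mul_nonneg (by linarith : (0:ℝ) ≤ 1 - 2 * l) (sub_nonneg.mpr h1)]

/-- symmetry -/
lemma mn_symm (f : ℝ → ℝ) (l : ℝ) : mn (fun a => f (1 - hh l a)) = mn (fun a => f (hh l a)) := by
  unfold mn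
  congr 1
  have e : ∀ a, 1 - hh l a = hh l (a + Real.pi / 2) := by
    intro a
    unfold hh
    rw [Real.sin_add_pi_div_two]
    have := Real.sin_sq_add_cos_sq a
    linear_combination (-(1 - 2 * l)) * this
  simp_rw [e]
  rw [intervalIntegral.integral_comp_add_right (fun a => f (hh l a)) (Real.pi / 2)]
  have hper : Function.Periodic (fun a => f (hh l a)) Real.pi := by
    intro a
    simp only [hh]
    rw [Real.sin_add_pi]
    simp
  have := hper.intervalIntegral_add_eq (Real.pi / 2) 0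
  rw [zero_add] at this ⊢
  rw [add_comm Real.pi (Real.pi / 2)]
  exact this

/-- monotonicity in `l` for convex functions -/
lemma mn_convex {f : ℝ → ℝ} (hf : Continuous f) (hc : ConvexOn ℝ (Icc (0 : ℝ) 1) f)
    {a l : ℝ} (ha : 0 ≤ a) (hal : a ≤ l) (hl2 : l ≤ 1 / 2) :
    mn (fun x => f (hh l x)) ≤ mn (fun x => f (hh a x)) := by
  rcases eq_or_lt_of_le hal with rfl | hlt
  · exact le_rfl
  have ha2 : a < 1 / 2 := lt_of_lt_of_le hlt hl2
  have hd : 0 < 1 - 2 * a := by linarith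
  set r : ℝ := (1 - 2 * l) / (1 - 2 * a) with hr
  have hr0 : 0 ≤ r := div_nonneg (by linarith) hd.le
  have hr1 : r ≤ 1 := by
    rw [hr, div_le_one hd]; linarith
  set th : ℝ := (1 + r) / 2 with hth
  have hrd : r * (1 - 2 * a) = 1 - 2 * l := by
    rw [hr]; field_simp
  have hpt : ∀ x, f (hh l x) ≤ th * f (hh a x) + (1 - th) * f (1 - hh a x) := by
    intro x
    have hm := hh_mem ha ha2.le x
    have hm' : 1 - hh a x ∈ Icc (0 : ℝ) 1 := ⟨by linarith [hm.2], by linarith [hm.1]⟩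
    have := hc.2 hm hm' (by rw [hth]; linarith : (0:ℝ) ≤ th) (by rw [hth]; linarith : (0:ℝ) ≤ 1 - th)
      (by ring)
    simp only [smul_eq_mul] at this
    have e : th * hh a x + (1 - th) * (1 - hh a x) = hh l x := by
      unfold hh
      rw [hth]
      linear_combination (-(1/2) + Real.sin x ^ 2) * hrd
    rw [e] at this
    exact this
  have c1 : Continuous fun x => f (hh l x) := hf.comp (cont_hh l)
  have c2 : Continuous fun x => f (hh a x) := hf.comp (cont_hh a)
  have c3 : Continuous fun x => f (1 - hh a x) := hf.comp (continuous_const.sub (cont_hh a))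
  calc mn (fun x => f (hh l x)) ≤ mn (fun x => th * f (hh a x) + (1 - th) * f (1 - hh a x)) :=
        mn_mono c1 ((continuous_const.mul c2).add (continuous_const.mul c3)) hpt
    _ = th * mn (fun x => f (hh a x)) + (1 - th) * mn (fun x => f (1 - hh a x)) := by
        have k2 : Continuous fun x => th * f (hh a x) := continuous_const.mul c2
        have k3 : Continuous fun x => (1 - th) * f (1 - hh a x) := continuous_const.mul c3
        rw [mn_add k2 k3, mn_const_mul, mn_const_mul]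
    _ = mn (fun x => f (hh a x)) := by rw [mn_symm]; ring

lemma EI_eq (l : ℝ) : ∀ k : ℕ, mn (fun x => hh l x ^ k) = EI k l ∧ mn (fun x => hh l x ^ (k + 1)) = EI (k + 1) l := by
  intro k
  induction k with
  | zero =>
    constructor
    · simp [EI, mn]
    · have h2 := mn_symm (fun x => x) l
      have h3 : mn (fun x => hh l x + (1 - hh l x)) = 1 := by simp [mn]
      have k2 : Continuous fun x => 1 - hh l x := continuous_const.sub (cont_hh l)
      rw [mn_add (cont_hh l) k2] at h3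
      simp only [zero_add, pow_one]
      have : EI 1 l = 1 / 2 := rfl
      rw [this]
      linarith
  | succ q ih =>
    refine ⟨ih.2, ?_⟩
    have hder : ∀ x, HasDerivAt (fun x => h1 l x * hh l x ^ (q + 1))
        ((4 * (q : ℝ) + 6) * hh l x ^ (q + 1) - (4 * (q : ℝ) + 8) * hh l x ^ (q + 1 + 1)
          - 4 * ((q : ℝ) + 1) * (l * (1 - l)) * hh l x ^ q) x := by
      intro x
      have h := (hasDerivAt_h1 l x).mul ((hasDerivAt_hh l x).pow (q + 1))
      refine h.congr_deriv ?_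
      have := h1_sq l x
      simp only [Nat.cast_add, Nat.cast_one, Nat.add_sub_cancel, Pi.pow_apply]
      linear_combination ((q : ℝ) + 1) * hh l x ^ q * this
    have c1 : ∀ k : ℕ, Continuous fun x => hh l x ^ k := fun k => (cont_hh l).pow k
    have hint : mn (fun x => (4 * (q : ℝ) + 6) * hh l x ^ (q + 1) - (4 * (q : ℝ) + 8) * hh l x ^ (q + 1 + 1)
          - 4 * ((q : ℝ) + 1) * (l * (1 - l)) * hh l x ^ q) = 0 := by
      unfold mn
      have cc : Continuous (fun x => (4 * (q : ℝ) + 6) * hh l x ^ (q + 1) - (4 * (q : ℝ) + 8) * hh l x ^ (q + 1 + 1)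
          - 4 * ((q : ℝ) + 1) * (l * (1 - l)) * hh l x ^ q) := by
        have := c1 q
        have := c1 (q+1)
        have := c1 (q+1+1)
        fun_prop
      rw [intervalIntegral.integral_eq_sub_of_hasDerivAt (fun a _ => hder a) (cc.intervalIntegrable _ _)]
      simp [h1]
    have e : (fun x => (4 * (q : ℝ) + 6) * hh l x ^ (q + 1) - (4 * (q : ℝ) + 8) * hh l x ^ (q + 1 + 1)
          - 4 * ((q : ℝ) + 1) * (l * (1 - l)) * hh l x ^ q)
        = fun x => ((4 * (q : ℝ) + 6) * hh l x ^ (q + 1) + (-(4 * (q : ℝ) + 8)) * hh l x ^ (q + 1 + 1))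
          + (-(4 * ((q : ℝ) + 1) * (l * (1 - l)))) * hh l x ^ q := by
      funext x; ring
    have g : ∀ (c : ℝ) (k : ℕ), Continuous fun x => c * hh l x ^ k := fun c k => continuous_const.mul (c1 k)
    have g2 : Continuous fun x => (4 * (q : ℝ) + 6) * hh l x ^ (q + 1) + (-(4 * (q : ℝ) + 8)) * hh l x ^ (q + 1 + 1) :=
      (g _ _).add (g _ _)
    rw [e, mn_add g2 (g _ _), mn_add (g _ _) (g _ _), mn_const_mul, mn_const_mul,
      mn_const_mul, ih.1, ih.2] at hint
    have hE : EI (q + 1 + 1) l = ((2 * (q : ℝ) + 3) * EI (q + 1) l - (2 * (q : ℝ) + 2) * (l * (1 - l)) * EI q l) / (2 * (q : ℝ) + 4) := rfl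
    have hq : (0:ℝ) < 2 * (q : ℝ) + 4 := by positivity
    rw [hE, eq_div_iff hq.ne']
    linarith

lemma hq_eq (n : ℕ) (l x : ℝ) : hq n 0 l x = Real.sqrt (hh l x ^ n) := by
  unfold hq; simp

lemma sqrt_split {m : ℕ} (hm : 1 ≤ m) {h : ℝ} (h0 : 0 ≤ h) :
    Real.sqrt (h ^ (2 * m - 1)) = Real.sqrt (h ^ (m - 1)) * Real.sqrt (h ^ m) := by
  rw [← Real.sqrt_mul (pow_nonneg h0 _), ← pow_add]
  congr 2
  omega

lemma mn_cs {f g : ℝ → ℝ} (hf : Continuous f) (hg : Continuous g) :
    mn (fun x => f x * g x) ^ 2 ≤ mn (fun x => f x ^ 2) * mn (fun x => g x ^ 2) := by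
  have key : ∀ t : ℝ, 0 ≤ mn (fun x => f x ^ 2) * (t * t) + (2 * mn (fun x => f x * g x)) * t
      + mn (fun x => g x ^ 2) := by
    intro t
    have h0 : 0 ≤ mn (fun x => (t * f x + g x) ^ 2) := mn_nonneg (fun x => sq_nonneg _)
    have e : (fun x => (t * f x + g x) ^ 2) = fun x => ((t * t) * f x ^ 2 + (2 * t) * (f x * g x)) + g x ^ 2 := by
      funext x; ring
    rw [e, mn_add (by fun_prop) (by fun_prop), mn_add (by fun_prop) (by fun_prop), mn_const_mul,
      mn_const_mul] at h0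
    linarith
  have := discrim_le_zero key
  unfold discrim at this
  nlinarith

lemma df_prod (n : ℕ) : ∏ i ∈ Finset.range n, ((2 * (i : ℝ) + 2) / (2 * (i : ℝ) + 3))
    = (((2 * n)‼ : ℕ) : ℝ) / (((2 * n + 1)‼ : ℕ) : ℝ) := by
  induction n with
  | zero => simp
  | succ n ih =>
    rw [Finset.prod_range_succ, ih]
    have e1 : (2 * (n + 1))‼ = (2 * n + 2) * (2 * n)‼ := by
      have : 2 * (n + 1) = 2 * n + 2 := by ring
      rw [this, Nat.doubleFactorial_add_two]
    have e2 : (2 * (n + 1) + 1)‼ = (2 * n + 3) * (2 * n + 1)‼ := by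
      have : 2 * (n + 1) + 1 = (2 * n + 1) + 2 := by ring
      rw [this, Nat.doubleFactorial_add_two]
    rw [e1, e2]
    push_cast
    have h1 : (((2 * n + 1)‼ : ℕ) : ℝ) ≠ 0 := by
      exact_mod_cast (Nat.doubleFactorial_pos _).ne'
    have h2 : (2 * (n : ℝ) + 3) ≠ 0 := by positivity
    field_simp

theorem EM2 : St_EM2 := by
  intro m hm l hl hl2
  have hm1 : 1 ≤ m := by omega
  have E0 : W546.ST.Eq (2 * m - 1) 0 l = mn (fun x => Real.sqrt (hh l x ^ (2 * m - 1))) := by
    unfold W546.ST.Eq; congr 1; funext x; exact hq_eq _ _ _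
  refine ⟨?_, ?_, ?_⟩
  · rw [E0]
    exact mn_nonneg (fun x => Real.sqrt_nonneg _)
  · intro a ha hal
    have hmem := hh_mem hl.le hl2
    have e1 : W546.ST.Eq (2 * m - 1) 0 l = mn (fun x => Real.sqrt (hh l x ^ (m - 1)) * Real.sqrt (hh l x ^ m)) := by
      rw [E0]; congr 1; funext x; exact sqrt_split hm1 (hmem x).1
    have ch := cont_hh l
    have cs := mn_cs (f := fun x => Real.sqrt (hh l x ^ (m - 1))) (g := fun x => Real.sqrt (hh l x ^ m))
      (by fun_prop) (by fun_prop)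
    have f1 : (fun x => Real.sqrt (hh l x ^ (m - 1)) ^ 2) = fun x => hh l x ^ (m - 1) := by
      funext x; exact Real.sq_sqrt (pow_nonneg (hmem x).1 _)
    have f2 : (fun x => Real.sqrt (hh l x ^ m) ^ 2) = fun x => hh l x ^ m := by
      funext x; exact Real.sq_sqrt (pow_nonneg (hmem x).1 _)
    rw [f1, f2] at cs
    rw [e1]
    refine cs.trans ?_
    have hcv : ∀ k : ℕ, ConvexOn ℝ (Icc (0:ℝ) 1) (fun x : ℝ => x ^ k) := fun k =>
      (convexOn_pow k).subset (fun x hx => hx.1) (convex_Icc 0 1)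
    have m1 := mn_convex (continuous_pow (m - 1)) (hcv (m - 1)) ha hal hl2
    have m2 := mn_convex (continuous_pow m) (hcv m) ha hal hl2
    have m1' : mn (fun x => hh l x ^ (m - 1)) ≤ mn (fun x => hh a x ^ (m - 1)) := m1
    have m2' : mn (fun x => hh l x ^ m) ≤ mn (fun x => hh a x ^ m) := m2
    rw [← (EI_eq a (m - 1)).1, ← (EI_eq a m).1]
    exact mul_le_mul m1' m2' (mn_nonneg (fun x => pow_nonneg (hmem x).1 _))
      (mn_nonneg (fun x => pow_nonneg (hh_mem ha (hal.trans hl2) x).1 _))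
  · have hcv : ConvexOn ℝ (Icc (0:ℝ) 1) (fun x : ℝ => Real.sqrt (x ^ (2 * m - 1))) := by
      have hp : (1:ℝ) ≤ ((2 * m - 1 : ℕ) : ℝ) / 2 := by
        have : (2:ℝ) ≤ ((2 * m - 1 : ℕ) : ℝ) := by
          have : 2 ≤ 2 * m - 1 := by omega
          exact_mod_cast this
        linarith
      have h := (convexOn_rpow hp).subset (s := Icc (0:ℝ) 1) (fun x hx => hx.1) (convex_Icc 0 1)
      refine h.congr ?_
      intro x hx
      simp only
      rw [Real.sqrt_eq_rpow, ← Real.rpow_natCast, ← Real.rpow_mul hx.1]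
      congr 1
      ring
    have h := mn_convex (f := fun x : ℝ => Real.sqrt (x ^ (2 * m - 1))) (by fun_prop) hcv le_rfl hl.le hl2
    rw [E0]
    refine h.trans (le_of_eq ?_)
    obtain ⟨n, rfl⟩ : ∃ n, m = n + 1 := ⟨m - 1, by omega⟩
    have e1 : 2 * (n + 1) - 1 = 2 * n + 1 := by omega
    have e2 : 2 * (n + 1) - 2 = 2 * n := by omega
    rw [e1, e2]
    unfold mn
    have e3 : ∫ a in (0:ℝ)..Real.pi, Real.sqrt (hh 0 a ^ (2 * n + 1))
        = ∫ a in (0:ℝ)..Real.pi, Real.sin a ^ (2 * n + 1) := by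
      refine intervalIntegral.integral_congr ?_
      intro x hx
      rw [uIcc_of_le Real.pi_pos.le] at hx
      have hs : 0 ≤ Real.sin x := Real.sin_nonneg_of_mem_Icc hx
      simp only [hh]
      have : (0 + (1 - 2 * 0) * Real.sin x ^ 2) ^ (2 * n + 1) = (Real.sin x ^ (2 * n + 1)) ^ 2 := by
        ring
      rw [this, Real.sqrt_sq (pow_nonneg hs _)]
    rw [e3, integral_sin_pow_odd, df_prod]
    ring

end Pool.Agent.W160.ST
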